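import Pool.Agent.Lib.MP_3ec723_lc.Main

/-!
# `min {𝔟, cov(𝒩)} ≤ 𝔷`

Every infinite compact Hausdorff space whose weight is smaller than the bounding number and than
the covering number of the null ideal contains a non-trivial convergent sequence. Consequently
`non(𝒩) < 𝔷` holds whenever `non(𝒩) < 𝔟` and `non(𝒩) < cov(𝒩)`.
-/

set_option autoImplicit false

universe u

namespace Pool.Agent.Results.MP_3ec723_lc.MinBCov

open Pool.Agent.Lib.MP_3ec723_lc

/-- `min {𝔟, cov(𝒩)} ≤ 𝔷`, and so `non(𝒩) < 𝔷` if `non(𝒩) < 𝔟` and `non(𝒩) < cov(𝒩)`. -/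
theorem result : Cardinal.lift.{u} (min bNum covN) ≤ zNum.{u} ∧
    (nonN < bNum → nonN < covN → Cardinal.lift.{u} nonN < zNum.{u}) :=
  ⟨min_le_zNum, fun h1 h2 => (Cardinal.lift_lt.2 (lt_min h1 h2)).trans_le min_le_zNum⟩

end Pool.Agent.Results.MP_3ec723_lc.MinBCov
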